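import Pool.Agent.H26.GC.Mom4

/-!
The area of the self-avoiding polygons on the square lattice: all the moments of order at least
`C log² n` and all the exponential moments for the polygons of perimeter `2 n`, a bound of the mean
area, and all the moments of order at least `C log² (1/(1/μ - z))` for the polygons weighted by
`z^perimeter`.
-/

set_option autoImplicit false

namespace Pool.Agent.Results.MP_2250b1_co.HighMoments

open Filter Topology MeasureTheory Set Metric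
open scoped Pointwise

/-- a closed nearest-neighbour loop on `ℤ²` with `m` steps, rooted at the origin and oriented,
that visits no vertex twice -/
def IsLoop (m : ℕ) (f : ZMod m → ℤ × ℤ) : Prop :=
  f 0 = 0 ∧ Function.Injective f ∧
    ∀ i : ZMod m, |(f (i + 1)).1 - (f i).1| + |(f (i + 1)).2 - (f i).2| = 1

/-- the edge from `f k` to `f (k+1)` is horizontal, joins the columns `x = a` and `x = a + 1`, and
has height larger than `b`: it lies above the unit cell `[a, a+1] × [b, b+1]` -/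
def Above (m : ℕ) (f : ZMod m → ℤ × ℤ) (a b : ℤ) (k : ZMod m) : Prop :=
  (((f k).1 = a ∧ (f (k + 1)).1 = a + 1) ∨ ((f k).1 = a + 1 ∧ (f (k + 1)).1 = a)) ∧ b < (f k).2

/-- the unit cell `[a, a+1] × [b, b+1]` is enclosed by the loop: the vertical ray from the cell
upwards crosses an odd number of edges -/
def Encl (m : ℕ) (f : ZMod m → ℤ × ℤ) (c : ℤ × ℤ) : Prop :=
  Odd (Nat.card {k : ZMod m // Above m f c.1 c.2 k})

/-- the area: the number of unit cells enclosed by the loop -/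
noncomputable def area (m : ℕ) (f : ZMod m → ℤ × ℤ) : ℕ := Nat.card {c : ℤ × ℤ // Encl m f c}

/-- the sum of the `k`-th powers of the areas of the rooted oriented polygons of perimeter `2 n` -/
noncomputable def total (n k : ℕ) : ℝ :=
  ∑ᶠ f ∈ {f : ZMod (2 * n) → ℤ × ℤ | IsLoop (2 * n) f}, (area (2 * n) f : ℝ) ^ k

/-- the `k`-th moment of the area of the uniform polygon of perimeter `2 n` -/
noncomputable def moment (n k : ℕ) : ℝ :=
  total n k / ({f : ZMod (2 * n) → ℤ × ℤ | IsLoop (2 * n) f}.ncard : ℝ)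

/-- the `k`-th moment of the area at the fugacity `z`: the sum of `z^(2 n) area^k` over all polygons
up to translation.  Here `2 n` is the perimeter, `n = j + 2` with `j = 0, 1, 2, …`, and a polygon
corresponds to `4 n` rooted and oriented loops. -/
noncomputable def gmoment (z : ℝ) (k : ℕ) : ℝ :=
  ∑' j : ℕ, z ^ (2 * (j + 2)) * total (j + 2) k / (4 * ((j + 2 : ℕ) : ℝ))

/-- the mean of `exp (s A / n)` for the uniform polygon of perimeter `2 n`, `A` its area -/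
noncomputable def laplace (n : ℕ) (s : ℝ) : ℝ :=
  (∑ᶠ f ∈ {f : ZMod (2 * n) → ℤ × ℤ | IsLoop (2 * n) f}, Real.exp (s * area (2 * n) f / n)) /
    ({f : ZMod (2 * n) → ℤ × ℤ | IsLoop (2 * n) f}.ncard : ℝ)

/-- `ω` is an `n`-step self-avoiding walk on `ℤ²` started at the origin. -/
def IsSAW (n : ℕ) (ω : Fin (n + 1) → ℤ × ℤ) : Prop :=
  ω 0 = (0, 0) ∧
  (∀ i : Fin n, |(ω i.succ).1 - (ω i.castSucc).1| + |(ω i.succ).2 - (ω i.castSucc).2| = 1) ∧
  Function.Injective ω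

/-- `c_n`: the number of `n`-step self-avoiding walks from the origin -/
noncomputable def c (n : ℕ) : ℕ := Nat.card {ω : Fin (n + 1) → ℤ × ℤ // IsSAW n ω}

/-- `c_n(x)`: the number of `n`-step self-avoiding walks from the origin to `x` -/
noncomputable def cx (n : ℕ) (x : ℤ × ℤ) : ℕ :=
  Nat.card {ω : Fin (n + 1) → ℤ × ℤ // IsSAW n ω ∧ ω (Fin.last n) = x}

/-- the two-point function `G_z(x) = ∑_n c_n(x) z^n` -/
noncomputable def G (z : ℝ) (x : ℤ × ℤ) : ℝ := ∑' n : ℕ, (cx n x : ℝ) * z ^ n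

/-- the Wulff shape of a function `m` of the directions `x ∈ ℤ²` -/
def Wulff (m : ℤ × ℤ → ℝ) : Set (ℝ × ℝ) :=
  {h | ∀ x : ℤ × ℤ, x ≠ 0 → h.1 * x.1 + h.2 * x.2 ≤ m x}

/-- the supremum of `u n² e^(- n R(u) / k)` over `0 < u < 1/4` -/
noncomputable def peak (R : ℝ → ℝ) (n k : ℕ) : ℝ :=
  sSup ((fun u : ℝ => u * (n : ℝ) ^ 2 * Real.exp (-(n / k * R u))) '' Ioo 0 (1 / 4))

/-- the supremum of `s u - R(u)` over `0 < u < 1/4` -/
noncomputable def conj (R : ℝ → ℝ) (s : ℝ) : ℝ :=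
  sSup ((fun u : ℝ => s * u - R u) '' Ioo 0 (1 / 4))

theorem c_eq (n : ℕ) : c n = TH795.EP.c n := TH795.EP2.card_walks n

theorem cx_eq (n : ℕ) (x : ℤ × ℤ) : cx n x = TH795.EP.a n x.1 x.2 := TH795.EP2.card_walks_to n x

theorem G_eq (z : ℝ) (x y : ℤ) : G z (x, y) = Y981.L2.Gz z x y := by
  unfold G Y981.L2.Gz
  apply tsum_congr
  intro n
  rw [cx_eq]

theorem moment_eq (n k : ℕ) : moment n k = H26.GC.mw n k / Y981.L2.ln n := rfl

theorem gmoment_eq (z : ℝ) (k : ℕ) : gmoment z k = H26.GC.Mz z k := rfl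

/-- **Theorem.** Let `μ = lim c_n^(1/n)` and, for `0 < z < 1/μ` and `x ∈ ℤ²`, `x ≠ 0`,
`m_z(x) = lim_k - (1/k) log G_z(k x)` the inverse correlation length of the self-avoiding walk in
the direction `x`.  Its Wulff shape `K_z = {h : h · x ≤ m_z(x) for all x}` is a convex compact
neighbourhood of `0`; let `|K_z|` be its area.  For `0 < u < 1/4` let `R(u)` be the maximum of
`2 √(u |K_z|) + 2 log (μ z)` over `0 < z < 1/μ`; it exists and is positive.
(1) Fixed perimeter.  Let `E_n[A^k]` be the `k`-th moment of the area of the uniform self-avoiding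
polygon of perimeter `2 n`, and `peak(n, k)` the supremum of `u n² e^(- n R(u) / k)` over
`0 < u < 1/4`.  For every `0 < ε < 1` there are `C` and `n₀` such that for all `n ≥ n₀` and **all**
`k ≥ C log² n` the number `E_n[A^k]^(1/k)` is between `(1 - ε) peak(n, k)` and
`(1 + ε) peak(n, k)`; for these `k` the mean area is at most `(1 + ε) peak(n, k)`.
(2) Pressure.  Let `F(s)` be the supremum of `s u - R(u)` over `0 < u < 1/4`.  For every
`0 < ε < 1` there are `C` and `n₀` such that for all `n ≥ n₀` and **all** `s > 0` the number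
`log E_n[exp (s A / n)]` is between `n F((1 - ε) s) - C log² n` and `n F((1 + ε) s) + C log² n`.
(3) Fixed fugacity.  Let `M_k(z)` be the sum of `z^perimeter area^k` over all polygons up to
translation.  For every `0 < ε < 1` and `E₁ > 0` there is `C` such that, for all `0 < E ≤ E₁` and
**all** `k ≥ C log² (2 + 1/E)`, with `z = e^(-E) / μ`: `M_k(z)` is between
`(1 - ε)^k (2k)! / (4 |K_z|)^k` and `(1 + ε)^k (2k)! / (4 |K_z|)^k`. -/
theorem result : ∃ (μ : ℝ) (m : ℝ → ℤ × ℤ → ℝ) (R : ℝ → ℝ),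
    Tendsto (fun n : ℕ => (c n : ℝ) ^ (1 / (n : ℝ))) atTop (𝓝 μ) ∧
    (∀ z : ℝ, 0 < z → z < 1 / μ → (∀ x : ℤ × ℤ, x ≠ 0 → 0 < m z x ∧
      Tendsto (fun k : ℕ => - Real.log (G z (k * x.1, k * x.2)) / k) atTop (𝓝 (m z x))) ∧
      Convex ℝ (Wulff (m z)) ∧ IsCompact (Wulff (m z)) ∧ (0 : ℝ × ℝ) ∈ interior (Wulff (m z))) ∧
    (∀ u : ℝ, 0 < u → u < 1 / 4 → 0 < R u ∧ (∃ z : ℝ, 0 < z ∧ z < 1 / μ ∧
        R u = 2 * √(u * volume.real (Wulff (m z))) + 2 * Real.log (μ * z)) ∧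
      ∀ z : ℝ, 0 < z → z < 1 / μ →
        2 * √(u * volume.real (Wulff (m z))) + 2 * Real.log (μ * z) ≤ R u) ∧
    (∀ ε : ℝ, 0 < ε → ε < 1 → ∃ (C : ℝ) (n₀ : ℕ), 0 < C ∧ ∀ n : ℕ, n₀ ≤ n → ∀ k : ℕ, 1 ≤ k →
      C * Real.log n ^ 2 ≤ k →
      ((1 - ε) * peak R n k) ^ k ≤ moment n k ∧ moment n k ≤ ((1 + ε) * peak R n k) ^ k ∧
      moment n 1 ≤ (1 + ε) * peak R n k) ∧
    (∀ ε : ℝ, 0 < ε → ε < 1 → ∃ (C : ℝ) (n₀ : ℕ), 0 < C ∧ ∀ n : ℕ, n₀ ≤ n → ∀ s : ℝ, 0 < s →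
      Real.exp (n * conj R ((1 - ε) * s) - C * Real.log n ^ 2) ≤ laplace n s ∧
      laplace n s ≤ Real.exp (n * conj R ((1 + ε) * s) + C * Real.log n ^ 2)) ∧
    ∀ ε E₁ : ℝ, 0 < ε → ε < 1 → 0 < E₁ → ∃ C : ℝ, 0 < C ∧ ∀ E : ℝ, 0 < E → E ≤ E₁ →
      ∀ k : ℕ, 1 ≤ k → C * Real.log (2 + 1 / E) ^ 2 ≤ k →
      (1 - ε) ^ k * (((2 * k).factorial : ℝ) /
          (4 * volume.real (Wulff (m (Real.exp (-E) / μ)))) ^ k) ≤ gmoment (Real.exp (-E) / μ) k ∧
      gmoment (Real.exp (-E) / μ) k ≤ (1 + ε) ^ k * (((2 * k).factorial : ℝ) /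
          (4 * volume.real (Wulff (m (Real.exp (-E) / μ)))) ^ k) := by
  have hmu := H981.mu_pos
  obtain ⟨m, hm⟩ : ∃ m : ℝ → ℤ × ℤ → ℝ,
      m = fun z x => Y981.L2X.M (-Real.log (z * H981.mu)) ((x.1 : ℝ), (x.2 : ℝ)) := ⟨_, rfl⟩
  have hlogE : ∀ z : ℝ, 0 < z → z < 1 / H981.mu → 0 < -Real.log (z * H981.mu) := by
    intro z hz hz1
    have h1 : z * H981.mu < 1 := by rwa [lt_div_iff₀ hmu] at hz1
    have h2 := Real.log_neg (mul_pos hz hmu) h1
    linarith
  have hW : ∀ z : ℝ, 0 < z → z < 1 / H981.mu →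
      Wulff (m z) = H26.WF.Kc (-Real.log (z * H981.mu)) := by
    intro z hz hz1
    rw [hm]
    exact H26.WF.shape (hlogE z hz hz1)
  have hz0 : ∀ E : ℝ, 0 < Real.exp (-E) / H981.mu := fun E => by positivity
  have hz1 : ∀ E : ℝ, 0 < E → Real.exp (-E) / H981.mu < 1 / H981.mu := by
    intro E hE
    rw [div_lt_div_iff_of_pos_right hmu, ← Real.exp_zero]
    exact Real.exp_lt_exp.2 (by linarith)
  have hzE : ∀ E : ℝ, -Real.log (Real.exp (-E) / H981.mu * H981.mu) = E := by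
    intro E
    rw [div_mul_cancel₀ _ hmu.ne', Real.log_exp, neg_neg]
  have hval : ∀ u : ℝ, 0 ≤ u → ∀ z : ℝ, 0 < z → z < 1 / H981.mu →
      2 * √(u * volume.real (Wulff (m z))) + 2 * Real.log (H981.mu * z) =
        2 * (√u * H26.WF.g (-Real.log (z * H981.mu))) - 2 * -Real.log (z * H981.mu) := by
    intro u hu z hz hz1
    rw [hW z hz hz1, Real.sqrt_mul hu, mul_comm H981.mu z]
    unfold H26.WF.g H26.WF.V
    ring
  have hv : ∀ u : ℝ, 0 ≤ u → ∀ E, 2 * √(u * H26.WF.V E) - 2 * E =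
      2 * (√u * H26.WF.g E) - 2 * E := by
    intro u hu E
    rw [Real.sqrt_mul hu]
    rfl
  refine ⟨H981.mu, m, H26.WF.RR, ?_, ?_, ?_, ?_, ?_, ?_⟩
  · refine H981.tendsto_root.congr ?_
    intro n
    rw [c_eq, TH795.EP.c_eq]
  · intro z hz hz1
    have he := hlogE z hz hz1
    refine ⟨fun x hx => ?_, ?_⟩
    · rw [hm]
      refine ⟨Y981.L2X.M_pos he hx, ?_⟩
      refine (Y981.L2X.G_dir hz hz1 hx).congr ?_
      intro k
      rw [G_eq]
    · rw [hW z hz hz1]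
      exact H26.WF.Kc_props he
  · intro u hu hu4
    have hs := H26.WF.sqrt_mem ⟨hu.le, hu4.le⟩
    refine ⟨?_, ?_, ?_⟩
    · rw [H26.WF.RR_eq hu.le]
      exact H26.WF.rho_pos (Real.sqrt_pos.2 hu) hs.2
    · obtain ⟨E, hE⟩ := H26.WS.exists_opt hu hu4
      refine ⟨_, hz0 E, hz1 E hE.1, ?_⟩
      rw [hval u hu.le _ (hz0 E) (hz1 E hE.1), hzE, ← hv u hu.le]
      exact hE.2
    · intro z hz hz1
      rw [hval u hu.le z hz hz1, H26.WF.RR_eq hu.le]
      exact H26.WF.le_rho hs.1 hs.2 (hlogE z hz hz1)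
  · intro ε hε hε1
    obtain ⟨C1, n₁, hC1, hn₁, h1⟩ := H26.GC.mom_fixed hε hε1
    obtain ⟨C2, n₂, hC2, hn₂, h2⟩ := H26.GC.mean_le hε hε1
    refine ⟨C1 + C2, n₁ + n₂, by linarith, ?_⟩
    intro n hn k hk hbig
    have hL : 0 ≤ Real.log (n : ℝ) ^ 2 := sq_nonneg _
    have b1 := mul_nonneg hC1.le hL
    have b2 := mul_nonneg hC2.le hL
    have e : (C1 + C2) * Real.log (n : ℝ) ^ 2 =
      C1 * Real.log (n : ℝ) ^ 2 + C2 * Real.log (n : ℝ) ^ 2 := by ring
    rw [e] at hbig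
    obtain ⟨h3, h4⟩ := h1 n (by omega) k hk (by linarith)
    have h5 := h2 n (by omega) k hk (by linarith)
    exact ⟨h3, h4, h5⟩
  · intro ε hε hε1
    obtain ⟨C, n₀, hC, hn₀, h⟩ := H26.GC.mgf_fixed hε hε1
    exact ⟨C, n₀, hC, h⟩
  · intro ε E₁ hε hε1 hE₁
    obtain ⟨C, hC, h⟩ := H26.GC.mom_gc hε hε1 hE₁
    refine ⟨C, hC, ?_⟩
    intro E hE hEE k hk hbig
    have h1 := h _ (hz0 E) (by rw [hzE]; exact hE) (by rw [hzE]; exact hEE) k hk
      (by rw [hzE]; exact hbig)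
    rw [hzE] at h1
    obtain ⟨-, h2, h3⟩ := h1
    have e1 : (4 * volume.real (Wulff (m (Real.exp (-E) / H981.mu)))) ^ k =
        (2 * H26.WF.g E) ^ (2 * k) := by
      rw [pow_mul]
      congr 1
      rw [mul_pow, H26.UN.g_sq, hW _ (hz0 E) (hz1 E hE), hzE]
      unfold H26.WF.V
      norm_num
    rw [e1]
    exact ⟨h2, h3⟩

end Pool.Agent.Results.MP_2250b1_co.HighMoments
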