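import Pool.Agent.H557.IT.Mean

/-!
Self-avoiding polygons on the square lattice under pressure: the inflation threshold, the exponents
of the inflation transition, the correlation length and the mean area.
-/

set_option autoImplicit false

namespace Pool.Agent.Results.MP_2250b1_co.InflationThreshold

open Filter Topology MeasureTheory Set

/-- a closed nearest-neighbour loop on `ℤ²` with `m` steps, rooted at the origin and oriented,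
that visits no vertex twice -/
def IsLoop (m : ℕ) (f : ZMod m → ℤ × ℤ) : Prop :=
  f 0 = 0 ∧ Function.Injective f ∧
    ∀ i : ZMod m, |(f (i + 1)).1 - (f i).1| + |(f (i + 1)).2 - (f i).2| = 1

/-- the edge from `f k` to `f (k+1)` is horizontal, joins the columns `x = a` and `x = a + 1`, and
has height larger than `b`: it lies above the unit cell `[a, a+1] × [b, b+1]` -/
def Above (m : ℕ) (f : ZMod m → ℤ × ℤ) (a b : ℤ) (k : ZMod m) : Prop :=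
  (((f k).1 = a ∧ (f (k + 1)).1 = a + 1) ∨ ((f k).1 = a + 1 ∧ (f (k + 1)).1 = a)) ∧ b < (f k).2

/-- the unit cell `[a, a+1] × [b, b+1]` is enclosed by the loop: the vertical ray from the cell
upwards crosses an odd number of edges -/
def Encl (m : ℕ) (f : ZMod m → ℤ × ℤ) (c : ℤ × ℤ) : Prop :=
  Odd (Nat.card {k : ZMod m // Above m f c.1 c.2 k})

/-- the area: the number of unit cells enclosed by the loop -/
noncomputable def area (m : ℕ) (f : ZMod m → ℤ × ℤ) : ℕ := Nat.card {c : ℤ × ℤ // Encl m f c}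

/-- the mean area `A_n` of the self-avoiding polygons of perimeter `2 n` -/
noncomputable def A (n : ℕ) : ℝ :=
  (∑ᶠ f ∈ {f : ZMod (2 * n) → ℤ × ℤ | IsLoop (2 * n) f}, (area (2 * n) f : ℝ)) /
    ({f : ZMod (2 * n) → ℤ × ℤ | IsLoop (2 * n) f}.ncard : ℝ)

/-- the proportion of the self-avoiding polygons of perimeter `2 n` with area at least `r` -/
noncomputable def tail (n : ℕ) (r : ℝ) : ℝ :=
  ({f : ZMod (2 * n) → ℤ × ℤ | IsLoop (2 * n) f ∧ r ≤ area (2 * n) f}.ncard : ℝ) /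
    ({f : ZMod (2 * n) → ℤ × ℤ | IsLoop (2 * n) f}.ncard : ℝ)

/-- the partition function of the polygons of perimeter `2 n` under the pressure `s / n`: each
polygon has the weight `exp (s area / n)` -/
noncomputable def Z (n : ℕ) (s : ℝ) : ℝ :=
  ∑ᶠ f ∈ {f : ZMod (2 * n) → ℤ × ℤ | IsLoop (2 * n) f}, Real.exp (s * area (2 * n) f / n)

/-- the mean area under the pressure `s / n` -/
noncomputable def meanArea (n : ℕ) (s : ℝ) : ℝ :=
  (∑ᶠ f ∈ {f : ZMod (2 * n) → ℤ × ℤ | IsLoop (2 * n) f},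
    (area (2 * n) f : ℝ) * Real.exp (s * area (2 * n) f / n)) / Z n s

/-- `ω` is an `n`-step self-avoiding walk on `ℤ²` started at the origin. -/
def IsSAW (n : ℕ) (ω : Fin (n + 1) → ℤ × ℤ) : Prop :=
  ω 0 = (0, 0) ∧
  (∀ i : Fin n, |(ω i.succ).1 - (ω i.castSucc).1| + |(ω i.succ).2 - (ω i.castSucc).2| = 1) ∧
  Function.Injective ω

/-- `c_n`: the number of `n`-step self-avoiding walks from the origin -/
noncomputable def c (n : ℕ) : ℕ := Nat.card {ω : Fin (n + 1) → ℤ × ℤ // IsSAW n ω}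

/-- `c_n(x)`: the number of `n`-step self-avoiding walks from the origin to `x` -/
noncomputable def cx (n : ℕ) (x : ℤ × ℤ) : ℕ :=
  Nat.card {ω : Fin (n + 1) → ℤ × ℤ // IsSAW n ω ∧ ω (Fin.last n) = x}

/-- the two-point function `G_z(x) = ∑_n c_n(x) z^n` -/
noncomputable def G (z : ℝ) (x : ℤ × ℤ) : ℝ := ∑' n : ℕ, (cx n x : ℝ) * z ^ n

/-- the Wulff shape of a function `m` of the directions `x ∈ ℤ²` -/
def Wulff (m : ℤ × ℤ → ℝ) : Set (ℝ × ℝ) :=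
  {h | ∀ x : ℤ × ℤ, x ≠ 0 → h.1 * x.1 + h.2 * x.2 ≤ m x}

/-- the correlation length `ξ_t = 1 / m_t(1, 0)` -/
noncomputable def xi (m : ℝ → ℤ × ℤ → ℝ) (t : ℝ) : ℝ := 1 / m t (1, 0)

/-- `f(t) ≤ C t^e` for all small `t > 0`, with some `C` -/
def Oh (f : ℝ → ℝ) (e : ℝ) : Prop := ∃ C : ℝ, ∀ᶠ t in 𝓝[>] (0 : ℝ), f t ≤ C * t ^ e

/-- `f(t) ≥ c t^e` for all small `t > 0`, with some `c > 0` -/
def Om (f : ℝ → ℝ) (e : ℝ) : Prop := ∃ c : ℝ, 0 < c ∧ ∀ᶠ t in 𝓝[>] (0 : ℝ), c * t ^ e ≤ f t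

/-- `f(t) = t^(e + o(1))` as `t → 0+` -/
def Ex (f : ℝ → ℝ) (e : ℝ) : Prop :=
  Tendsto (fun t => Real.log (f t) / Real.log t) (𝓝[>] 0) (𝓝 e)

/-- the tail of the area is at most `exp (C log² n - c n (a / n²)^p)` for all `n ≥ 2`, `a > 0` -/
def TailUp (p : ℝ) : Prop := ∃ C c : ℝ, 0 < c ∧ ∀ n : ℕ, 2 ≤ n → ∀ a : ℝ, 0 < a →
  tail n a ≤ Real.exp (C * Real.log n ^ 2 - c * (n * (a / (n : ℝ) ^ 2) ^ p))

/-- the tail of the area is at least `exp (- C log² n - C n (a / n²)^p)` for all large `n` and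
`0 < a ≤ n² / 8` -/
def TailLow (p : ℝ) : Prop := ∃ C : ℝ, ∀ᶠ n : ℕ in atTop, ∀ a : ℝ, 0 < a →
  a ≤ (n : ℝ) ^ 2 / 8 →
  Real.exp (-(C * Real.log n ^ 2) - C * (n * (a / (n : ℝ) ^ 2) ^ p)) ≤ tail n a

theorem c_eq (n : ℕ) : c n = TH795.EP.c n := TH795.EP2.card_walks n

theorem cx_eq (n : ℕ) (x : ℤ × ℤ) : cx n x = TH795.EP.a n x.1 x.2 := TH795.EP2.card_walks_to n x

theorem G_eq (z : ℝ) (x y : ℤ) : G z (x, y) = Y981.L2.Gz z x y := by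
  unfold G Y981.L2.Gz
  apply tsum_congr
  intro n
  rw [cx_eq]

/-- **Theorem.** Let `A_n` be the mean area of the self-avoiding polygons of perimeter `2 n` on `ℤ²`,
`μ = lim c_n^(1/n)` and, for `t > 0`, `m_t(x) = lim_k - (1/k) log G_z(k x)` with `z = e^(-t) / μ` the
inverse correlation length of the self-avoiding walk in the direction `x`, `ξ_t = 1 / m_t(1, 0)`
the correlation length and `|K_t|` the area of the Wulff shape
`K_t = {h : h · x ≤ m_t(x) for all x}`.  Let `R(u) = lim - (1/n) log Prob(area ≥ u n²)` be the rate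
function of the area, `F(s) = lim (1/n) log E[exp (s area / n)]` the free energy under the pressure
`s / n`, and `a(s) = lim E_s[area] / n²` (at all but countably many `s`) the scaled mean area under
the pressure `s / n`.

(1) Threshold.  With `s_c = inf_{t > 0} |K_t| / (2 t)` one has `F(s) = 0` for `s ≤ s_c` and `F(s) > 0`
for `s > s_c`, `a(s) = 0` for `s < s_c` and `a(s) > 0` for `s > s_c`.  With `S = sup_{t > 0} t ξ_t²`:
`1 ≤ s_c S` and `s_c t ξ_t² ≤ 2` for all `t`, so that `1 / S ≤ s_c ≤ 2 / S`; in particular `s_c > 0`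
if and only if `ξ_t = O(t^(-1/2))`.

(2) `s_c > 0` if and only if `Prob(area ≥ a) ≤ exp (C log² n - c a / n)` for all `n ≥ 2`, `a > 0`, with
some `C` and `c > 0`; and in this case `A_n ≤ C n (log n)²` for all `n ≥ 2`.

(3) Exponents.  Let `1/2 < ν < 1`, `p = 1 / (2 - 2 ν)` and `q = 1 / (2 ν - 1)`.
(a) Equivalent are, as `u, t, s → 0+`: `ξ_t = O(t^(-ν))`; `R(u) ≥ c u^p`; `F(s) = O(s^q)`;
`a(s) = O(s^(q-1))`; `Prob(area ≥ a) ≤ exp (C log² n - c n (a/n²)^p)` for all `n ≥ 2` and `a > 0`.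
They imply `A_n ≤ C n^(2ν) (log n)^(4-4ν)`.
(b) Equivalent are: `ξ_t ≥ c t^(-ν)`; `R(u) = O(u^p)`;
`Prob(area ≥ a) ≥ exp (- C log² n - C n (a/n²)^p)` for all large `n` and `0 < a ≤ n²/8`.
They imply `F(s) ≥ c s^q` and `a(s) ≥ c s^(q-1)`.
(c) If `A_n ≥ c n^(2ν)` for all large `n`, then for small `u, t, s > 0`: `R(u) ≤ C u^p log²(1/u)`,
`ξ_t ≥ c' t^(-ν) / log(1/t)^(2-2ν)`, `F(s) ≥ c' s^q / log(1/s)^(2q-2)` and
`a(s) ≥ c' s^(q-1) / log(1/s)^(2q-2)`.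
(d) Equivalent are: `ξ_t = t^(-ν+o(1))`; `R(u) = u^(p+o(1))`; `F(s) = s^(q+o(1))`;
`a(s) = s^(q-1+o(1))`.

(4) The conjecture.  If `A_n ~ c n^(3/2)` with `c > 0`, then `s_c = 0` (every pressure `s / n`
inflates the polygons), and for small `u, t, s > 0`: `R(u) ≤ C u² log²(1/u)`,
`ξ_t ≥ c' t^(-3/4) / log(1/t)^(1/2)`, `F(s) ≥ c' s² / log²(1/s)` and `a(s) ≥ c' s / log²(1/s)`. -/
theorem result : ∃ (μ : ℝ) (m : ℝ → ℤ × ℤ → ℝ) (R F a : ℝ → ℝ) (sc : ℝ), 0 < μ ∧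
    Tendsto (fun n : ℕ => (c n : ℝ) ^ (1 / (n : ℝ))) atTop (𝓝 μ) ∧
    (∀ t : ℝ, 0 < t → ∀ x : ℤ × ℤ, x ≠ 0 → 0 < m t x ∧
      Tendsto (fun k : ℕ => - Real.log (G (Real.exp (-t) / μ) (k * x.1, k * x.2)) / k) atTop
        (𝓝 (m t x))) ∧
    (∀ u : ℝ, 0 < u → u < 1 / 4 →
      Tendsto (fun n : ℕ => - Real.log (tail n (u * (n : ℝ) ^ 2)) / n) atTop (𝓝 (R u))) ∧
    (∀ s : ℝ, Tendsto (fun n : ℕ => Real.log (Z n s / Z n 0) / n) atTop (𝓝 (F s))) ∧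
    (Monotone a ∧ {s : ℝ | ¬ContinuousAt a s}.Countable ∧ ∀ s : ℝ, ContinuousAt a s →
      Tendsto (fun n : ℕ => meanArea n s / (n : ℝ) ^ 2) atTop (𝓝 (a s))) ∧
    -- (1)
    ((∀ s ≤ sc, F s = 0) ∧ (∀ s > sc, 0 < F s) ∧ (∀ s < sc, a s = 0) ∧ (∀ s > sc, 0 < a s) ∧
      IsGLB {y : ℝ | ∃ t : ℝ, 0 < t ∧ y = volume.real (Wulff (m t)) / (2 * t)} sc ∧
      (∀ t : ℝ, 0 < t → sc * (t * xi m t ^ 2) ≤ 2) ∧
      ∀ S : ℝ, (∀ t : ℝ, 0 < t → t * xi m t ^ 2 ≤ S) → 1 ≤ sc * S) ∧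
    -- (2)
    ((0 < sc ↔ TailUp 1) ∧
      (0 < sc → ∃ C : ℝ, ∀ n : ℕ, 2 ≤ n → A n ≤ C * n * Real.log n ^ 2)) ∧
    -- (3)
    (∀ ν p q : ℝ, 1 / 2 < ν → ν < 1 → p = 1 / (2 - 2 * ν) → q = 1 / (2 * ν - 1) →
      ([Oh (xi m) (-ν), Om R p, Oh F q, Oh a (q - 1), TailUp p].TFAE ∧
        (Oh (xi m) (-ν) → ∃ C : ℝ, ∀ n : ℕ, 2 ≤ n →
          A n ≤ C * (n : ℝ) ^ (2 * ν) * Real.log n ^ (4 - 4 * ν))) ∧
      ([Om (xi m) (-ν), Oh R p, TailLow p].TFAE ∧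
        (Om (xi m) (-ν) → Om F q ∧ Om a (q - 1))) ∧
      (∀ c : ℝ, 0 < c → (∀ᶠ n : ℕ in atTop, c * (n : ℝ) ^ (2 * ν) ≤ A n) →
        ∃ C c' : ℝ, 0 < c' ∧
          (∀ᶠ u in 𝓝[>] (0 : ℝ), R u ≤ C * u ^ p * Real.log (1 / u) ^ 2) ∧
          (∀ᶠ t in 𝓝[>] (0 : ℝ), c' * t ^ (-ν) / Real.log (1 / t) ^ (2 - 2 * ν) ≤ xi m t) ∧
          (∀ᶠ s in 𝓝[>] (0 : ℝ), c' * s ^ q / Real.log (1 / s) ^ (2 * (q - 1)) ≤ F s) ∧
          ∀ᶠ s in 𝓝[>] (0 : ℝ), c' * s ^ (q - 1) / Real.log (1 / s) ^ (2 * (q - 1)) ≤ a s) ∧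
      [Ex (xi m) (-ν), Ex R p, Ex F q, Ex a (q - 1)].TFAE) ∧
    -- (4)
    ∀ c : ℝ, 0 < c → Tendsto (fun n : ℕ => A n / (n : ℝ) ^ (3 / 2 : ℝ)) atTop (𝓝 c) →
      sc = 0 ∧ ∃ C c' : ℝ, 0 < c' ∧
        (∀ᶠ u in 𝓝[>] (0 : ℝ), R u ≤ C * u ^ 2 * Real.log (1 / u) ^ 2) ∧
        (∀ᶠ t in 𝓝[>] (0 : ℝ), c' * t ^ (-(3 / 4) : ℝ) / √(Real.log (1 / t)) ≤ xi m t) ∧
        (∀ᶠ s in 𝓝[>] (0 : ℝ), c' * s ^ 2 / Real.log (1 / s) ^ 2 ≤ F s) ∧
        ∀ᶠ s in 𝓝[>] (0 : ℝ), c' * s / Real.log (1 / s) ^ 2 ≤ a s := by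
  have hmu := H981.mu_pos
  obtain ⟨m, hm⟩ : ∃ m : ℝ → ℤ × ℤ → ℝ, m = fun (t : ℝ) (x : ℤ × ℤ) =>
      if x = (1, 0) then Y981.L2.mass t else Y981.L2X.M t ((x.1 : ℝ), (x.2 : ℝ)) := ⟨_, rfl⟩
  have hmt : ∀ t : ℝ, 0 < t → ∀ x : ℤ × ℤ, m t x = Y981.L2X.M t ((x.1 : ℝ), (x.2 : ℝ)) := by
    intro t ht x
    rw [hm]
    simp only
    split_ifs with h
    · rw [h]
      have e1 : (((1 : ℤ) : ℝ), ((0 : ℤ) : ℝ)) = ((1 : ℝ), (0 : ℝ)) := by norm_num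
      simp only [e1]
      exact (Y981.L2X.M_axis ht).symm
    · rfl
  have hxi : xi m = H557.IT.xi := by
    funext t
    unfold xi H557.IT.xi
    rw [hm]
    simp
  have hW : ∀ t : ℝ, 0 < t → Wulff (m t) = H26.WF.Kc t := by
    intro t ht
    rw [← H26.WF.shape ht]
    unfold Wulff
    ext h
    simp only [hmt t ht]
  have hZ0 : ∀ n : ℕ, 1 ≤ n → Z n 0 =
      ({f : ZMod (2 * n) → ℤ × ℤ | H981.IsLoop (2 * n) f}.ncard : ℝ) := by
    intro n hn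
    have e : Z n 0 = H26.WS.Zs n 0 := rfl
    rw [e]
    unfold H26.WS.Zs
    simp only [zero_mul, zero_div, Real.exp_zero]
    rw [finsum_mem_eq_finite_toFinset_sum _ (Y981.L2.loops_finite hn), Finset.sum_const,
      nsmul_eq_mul, mul_one, Set.ncard_eq_toFinset_card _ (Y981.L2.loops_finite hn)]
  refine ⟨H981.mu, m, H26.WF.RR, H26.WF.FE, H26.WF.am, H557.IT.sc, hmu, ?_, ?_, ?_, ?_,
    ⟨H26.WF.am_mono, H26.WF.am_mono.countable_not_continuousAt, ?_⟩,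
    ⟨fun s hs => H557.IT.FE_zero hs, fun s hs => H557.IT.FE_pos hs,
      fun s hs => H557.IT.am_below hs, fun s hs => H557.IT.am_above hs, ?_, ?_, ?_⟩,
    ⟨H557.IT.sc_iff, H557.IT.sc_area⟩, ?_, ?_⟩
  · refine H981.tendsto_root.congr ?_
    intro n
    rw [c_eq, TH795.EP.c_eq]
  · intro t ht x hx
    rw [hmt t ht]
    refine ⟨Y981.L2X.M_pos ht hx, ?_⟩
    have hz : 0 < Real.exp (-t) / H981.mu := by positivity
    have hz1 : Real.exp (-t) / H981.mu < 1 / H981.mu := by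
      rw [div_lt_div_iff_of_pos_right hmu, ← Real.exp_zero]
      exact Real.exp_lt_exp.2 (by linarith)
    have hl : -Real.log (Real.exp (-t) / H981.mu * H981.mu) = t := by
      rw [div_mul_cancel₀ _ hmu.ne', Real.log_exp, neg_neg]
    have h := Y981.L2X.G_dir hz hz1 hx
    rw [hl] at h
    refine h.congr ?_
    intro k
    rw [G_eq]
  · intro u hu hu4
    have h := (H26.WF.tendsto_par hu hu4).neg
    rw [neg_neg] at h
    refine h.congr ?_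
    intro n
    rw [← neg_div]
    rfl
  · intro s
    refine (H26.WF.pressure s).congr' ?_
    filter_upwards [eventually_ge_atTop 1] with n hn
    rw [hZ0 n hn]
    rfl
  · intro s hs
    exact H26.WS.mean_areaP hs
  · have e : {y : ℝ | ∃ t : ℝ, 0 < t ∧ y = volume.real (Wulff (m t)) / (2 * t)} =
        {y : ℝ | ∃ t : ℝ, 0 < t ∧ y = H26.WF.V t / (2 * t)} := by
      ext y
      constructor
      · rintro ⟨t, ht, rfl⟩
        exact ⟨t, ht, by rw [hW t ht]; rfl⟩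
      · rintro ⟨t, ht, rfl⟩
        exact ⟨t, ht, by rw [hW t ht]; rfl⟩
    rw [e]
    exact H557.IT.sc_glb
  · intro t ht
    rw [hxi]
    exact H557.IT.sc_xi ht
  · intro S hS
    rw [hxi] at hS
    exact H557.IT.xi_sc hS
  · intro ν p q hν hν1 hpν hqν
    subst hpν hqν
    rw [hxi]
    have hp : 0 < 1 / (2 - 2 * ν) := div_pos one_pos (by linarith)
    have hq : 1 < 1 / (2 * ν - 1) := by
      rw [lt_div_iff₀ (by linarith)]
      linarith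
    have h1 : Oh H557.IT.xi (-ν) ↔ Om H26.WF.RR (1 / (2 - 2 * ν)) :=
      (H557.IT.up_tfae hν hν1).1
    have h2 : Oh H557.IT.xi (-ν) ↔ Oh H26.WF.FE (1 / (2 * ν - 1)) := (H557.IT.up_tfae hν hν1).2
    have h2' : Oh H26.WF.FE (1 / (2 * ν - 1)) ↔ Oh H26.WF.am (1 / (2 * ν - 1) - 1) :=
      H557.IT.oh_a
    have h2'' : TailUp (1 / (2 - 2 * ν)) ↔ Om H26.WF.RR (1 / (2 - 2 * ν)) :=
      H557.IT.tailUp_iff hp
    have h3 : Om H557.IT.xi (-ν) ↔ Oh H26.WF.RR (1 / (2 - 2 * ν)) := (H557.IT.low_tfae hν hν1).1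
    have h3' : TailLow (1 / (2 - 2 * ν)) ↔ Oh H26.WF.RR (1 / (2 - 2 * ν)) :=
      H557.IT.tailLow_iff hp
    have h4 : Om H557.IT.xi (-ν) → Om H26.WF.FE (1 / (2 * ν - 1)) := (H557.IT.low_tfae hν hν1).2
    have h4' : Om H26.WF.FE (1 / (2 * ν - 1)) ↔ Om H26.WF.am (1 / (2 * ν - 1) - 1) :=
      H557.IT.om_a
    have h5 : Ex H557.IT.xi (-ν) ↔ Ex H26.WF.RR (1 / (2 - 2 * ν)) := (H557.IT.expo_tfae hν hν1).1
    have h6 : Ex H557.IT.xi (-ν) ↔ Ex H26.WF.FE (1 / (2 * ν - 1)) := (H557.IT.expo_tfae hν hν1).2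
    have h6' : Ex H26.WF.FE (1 / (2 * ν - 1)) ↔ Ex H26.WF.am (1 / (2 * ν - 1) - 1) :=
      H557.IT.ex_a hq
    refine ⟨⟨?_, H557.IT.up_area hν hν1⟩, ⟨?_, fun h => ⟨h4 h, h4'.1 (h4 h)⟩⟩, ?_, ?_⟩
    · tfae_have 1 ↔ 2 := h1
      tfae_have 1 ↔ 3 := h2
      tfae_have 3 ↔ 4 := h2'
      tfae_have 5 ↔ 2 := h2''
      tfae_finish
    · tfae_have 1 ↔ 2 := h3
      tfae_have 3 ↔ 2 := h3'
      tfae_finish
    · intro c hc h
      obtain ⟨C, c', hc', e1, e2, e3⟩ := H557.IT.low_area hν hν1 hc h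
      exact ⟨C, c', hc', e1, e2, e3, H557.IT.div_a e3⟩
    · tfae_have 1 ↔ 2 := h5
      tfae_have 1 ↔ 3 := h6
      tfae_have 3 ↔ 4 := h6'
      tfae_finish
  · intro c hc h
    rw [hxi]
    obtain ⟨e0, C, c', hc', e1, e2, e3⟩ := H557.IT.law hc h
    exact ⟨e0, C, c', hc', e1, e2, e3, H557.IT.div_a2 e3⟩

end Pool.Agent.Results.MP_2250b1_co.InflationThreshold
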