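import Pool.Agent.H26.WS.Press

/-!
Self-avoiding polygons on the square lattice under pressure: the inflation transition, the mean
area and the shape of the inflated polygons.
-/

set_option autoImplicit false

namespace Pool.Agent.Results.MP_2250b1_co.InflationTransition

open Filter Topology MeasureTheory Set Metric
open scoped Pointwise

/-- a closed nearest-neighbour loop on `ℤ²` with `m` steps, rooted at the origin and oriented,
that visits no vertex twice -/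
def IsLoop (m : ℕ) (f : ZMod m → ℤ × ℤ) : Prop :=
  f 0 = 0 ∧ Function.Injective f ∧
    ∀ i : ZMod m, |(f (i + 1)).1 - (f i).1| + |(f (i + 1)).2 - (f i).2| = 1

/-- the edge from `f k` to `f (k+1)` is horizontal, joins the columns `x = a` and `x = a + 1`, and
has height larger than `b`: it lies above the unit cell `[a, a+1] × [b, b+1]` -/
def Above (m : ℕ) (f : ZMod m → ℤ × ℤ) (a b : ℤ) (k : ZMod m) : Prop :=
  (((f k).1 = a ∧ (f (k + 1)).1 = a + 1) ∨ ((f k).1 = a + 1 ∧ (f (k + 1)).1 = a)) ∧ b < (f k).2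

/-- the unit cell `[a, a+1] × [b, b+1]` is enclosed by the loop: the vertical ray from the cell
upwards crosses an odd number of edges -/
def Encl (m : ℕ) (f : ZMod m → ℤ × ℤ) (c : ℤ × ℤ) : Prop :=
  Odd (Nat.card {k : ZMod m // Above m f c.1 c.2 k})

/-- the area: the number of unit cells enclosed by the loop -/
noncomputable def area (m : ℕ) (f : ZMod m → ℤ × ℤ) : ℕ := Nat.card {c : ℤ × ℤ // Encl m f c}

/-- the convex hull of the polygon, scaled by `1/n` -/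
def hull (n : ℕ) (f : ZMod (2 * n) → ℤ × ℤ) : Set (ℝ × ℝ) :=
  convexHull ℝ (range fun k : ZMod (2 * n) => (((f k).1 : ℝ) / n, ((f k).2 : ℝ) / n))

/-- the region enclosed by the polygon (the union of the enclosed unit cells), scaled by `1/n` -/
def inside (n : ℕ) (f : ZMod (2 * n) → ℤ × ℤ) : Set (ℝ × ℝ) :=
  ⋃ c ∈ {c : ℤ × ℤ | Encl (2 * n) f c},
    Ico ((c.1 : ℝ) / n) (((c.1 : ℝ) + 1) / n) ×ˢ Ico ((c.2 : ℝ) / n) (((c.2 : ℝ) + 1) / n)

/-- the polygon, scaled by `1/n`, has the shape `T` up to `δ`: after a translation of `T` the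
Hausdorff distance between the convex hull of the polygon and `T` is smaller than `δ`, and so is
the area of the symmetric difference of the enclosed region and `T` -/
def Close (n : ℕ) (T : Set (ℝ × ℝ)) (δ : ℝ) (f : ZMod (2 * n) → ℤ × ℤ) : Prop :=
  ∃ w : ℝ × ℝ, hausdorffDist (hull n f) ((fun x => x + w) '' T) < δ ∧
    volume.real (symmDiff (inside n f) ((fun x => x + w) '' T)) < δ

/-- the partition function of the polygons of perimeter `2 n` with the property `B`, weighted by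
`exp (s area / n)` -/
noncomputable def Z (n : ℕ) (s : ℝ) (B : (ZMod (2 * n) → ℤ × ℤ) → Prop) : ℝ :=
  ∑ᶠ f ∈ {f : ZMod (2 * n) → ℤ × ℤ | IsLoop (2 * n) f ∧ B f}, Real.exp (s * area (2 * n) f / n)

/-- the probability of `B` under the pressure `s` -/
noncomputable def prob (n : ℕ) (s : ℝ) (B : (ZMod (2 * n) → ℤ × ℤ) → Prop) : ℝ :=
  Z n s B / Z n s fun _ => True

/-- the mean area under the pressure `s` -/
noncomputable def meanArea (n : ℕ) (s : ℝ) : ℝ :=
  (∑ᶠ f ∈ {f : ZMod (2 * n) → ℤ × ℤ | IsLoop (2 * n) f},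
    (area (2 * n) f : ℝ) * Real.exp (s * area (2 * n) f / n)) / Z n s fun _ => True

/-- `ω` is an `n`-step self-avoiding walk on `ℤ²` started at the origin. -/
def IsSAW (n : ℕ) (ω : Fin (n + 1) → ℤ × ℤ) : Prop :=
  ω 0 = (0, 0) ∧
  (∀ i : Fin n, |(ω i.succ).1 - (ω i.castSucc).1| + |(ω i.succ).2 - (ω i.castSucc).2| = 1) ∧
  Function.Injective ω

/-- `c_n`: the number of `n`-step self-avoiding walks from the origin -/
noncomputable def c (n : ℕ) : ℕ := Nat.card {ω : Fin (n + 1) → ℤ × ℤ // IsSAW n ω}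

/-- `c_n(x)`: the number of `n`-step self-avoiding walks from the origin to `x` -/
noncomputable def cx (n : ℕ) (x : ℤ × ℤ) : ℕ :=
  Nat.card {ω : Fin (n + 1) → ℤ × ℤ // IsSAW n ω ∧ ω (Fin.last n) = x}

/-- the two-point function `G_z(x) = ∑_n c_n(x) z^n` -/
noncomputable def G (z : ℝ) (x : ℤ × ℤ) : ℝ := ∑' n : ℕ, (cx n x : ℝ) * z ^ n

/-- the Wulff shape of a function `m` of the directions `x ∈ ℤ²` -/
def Wulff (m : ℤ × ℤ → ℝ) : Set (ℝ × ℝ) :=
  {h | ∀ x : ℤ × ℤ, x ≠ 0 → h.1 * x.1 + h.2 * x.2 ≤ m x}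

/-- `z` maximises `2 √(u |K_z|) + 2 log (μ z)`, `K_z` the Wulff shape of `m z` -/
def IsMax (μ : ℝ) (m : ℝ → ℤ × ℤ → ℝ) (u z : ℝ) : Prop :=
  0 < z ∧ z < 1 / μ ∧ ∀ z' : ℝ, 0 < z' → z' < 1 / μ →
    2 * √(u * volume.real (Wulff (m z'))) + 2 * Real.log (μ * z') ≤
      2 * √(u * volume.real (Wulff (m z))) + 2 * Real.log (μ * z)

theorem c_eq (n : ℕ) : c n = TH795.EP.c n := TH795.EP2.card_walks n

theorem cx_eq (n : ℕ) (x : ℤ × ℤ) : cx n x = TH795.EP.a n x.1 x.2 := TH795.EP2.card_walks_to n x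

theorem G_eq (z : ℝ) (x y : ℤ) : G z (x, y) = Y981.L2.Gz z x y := by
  unfold G Y981.L2.Gz
  apply tsum_congr
  intro n
  rw [cx_eq]

/-- **Theorem.** Let `μ = lim c_n^(1/n)` and, for `0 < z < 1/μ` and `x ∈ ℤ²`, `x ≠ 0`,
`m_z(x) = lim_k - (1/k) log G_z(k x)` the inverse correlation length of the self-avoiding walk in
the direction `x`, `K_z = {h : h · x ≤ m_z(x) for all x}` its Wulff shape, `|K_z|` the area of
`K_z`, `R(u) = sup_{0 < z < 1/μ} (2 √(u |K_z|) + 2 log (μ z))` and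
`F(s) = max_{0 ≤ u ≤ 1/4} (s u - R(u))`.
Give the self-avoiding polygons of perimeter `2 n` the weights `exp (s A / n)`, `A` the area
(pressure `s / n`).
(1) `(1/n) log (∑ exp (s A / n) / #polygons) → F(s)`.  There are a threshold `s_c ≥ 0` and a
nondecreasing function `a` with values in `[0, 1/4)`, continuous at all but countably many points,
such that `F = 0` on `(-∞, s_c]`, `F > 0` on `(s_c, ∞)`, `a = 0` on `(-∞, s_c)` and `a > 0` on
`(s_c, ∞)`.
(2) If `a` is continuous at `s`, then `F'(s) = a(s)`, the mean area `E_s[A_n]` divided by `n²`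
tends to `a(s)`, and for every `ε > 0` the probability that `A_n / n²` differs from `a(s)` by `ε` or
more is at most `exp (- c n)` for large `n`, with some `c > 0`.
(3) If moreover `s > s_c`, there is a `z` which maximises `2 √(a(s) |K_z|) + 2 log (μ z)`, and for
every such `z` the polygons have the Wulff shape `√(a(s) / |K_z|) K_z`: for every `δ > 0` all but a
proportion `exp (- c n)` (in weight) of them have, scaled by `1/n`, this shape up to `δ`. -/
theorem result : ∃ (μ : ℝ) (m : ℝ → ℤ × ℤ → ℝ) (R F a : ℝ → ℝ) (sc : ℝ),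
    Tendsto (fun n : ℕ => (c n : ℝ) ^ (1 / (n : ℝ))) atTop (𝓝 μ) ∧
    (∀ z : ℝ, 0 < z → z < 1 / μ → (∀ x : ℤ × ℤ, x ≠ 0 → 0 < m z x ∧
      Tendsto (fun k : ℕ => - Real.log (G z (k * x.1, k * x.2)) / k) atTop (𝓝 (m z x))) ∧
      Convex ℝ (Wulff (m z)) ∧ IsCompact (Wulff (m z)) ∧ (0 : ℝ × ℝ) ∈ interior (Wulff (m z))) ∧
    (∀ u ∈ Icc (0 : ℝ) (1 / 4), IsLUB {y : ℝ | ∃ z : ℝ, 0 < z ∧ z < 1 / μ ∧
      y = 2 * √(u * volume.real (Wulff (m z))) + 2 * Real.log (μ * z)} (R u)) ∧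
    (∀ s : ℝ, IsGreatest {y : ℝ | ∃ u ∈ Icc (0 : ℝ) (1 / 4), y = s * u - R u} (F s) ∧
      Tendsto (fun n : ℕ => Real.log (Z n s (fun _ => True) / Z n 0 fun _ => True) / n) atTop
        (𝓝 (F s))) ∧
    (0 ≤ sc ∧ (∀ s ≤ sc, F s = 0) ∧ (∀ s > sc, 0 < F s) ∧ Monotone a ∧
      (∀ s, 0 ≤ a s ∧ a s < 1 / 4) ∧ (∀ s < sc, a s = 0) ∧ (∀ s > sc, 0 < a s) ∧
      {s : ℝ | ¬ContinuousAt a s}.Countable) ∧
    ∀ s : ℝ, ContinuousAt a s →
      HasDerivAt F (a s) s ∧
      Tendsto (fun n : ℕ => meanArea n s / (n : ℝ) ^ 2) atTop (𝓝 (a s)) ∧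
      (∀ ε : ℝ, 0 < ε → ∃ c : ℝ, 0 < c ∧ ∀ᶠ n : ℕ in atTop,
        prob n s (fun f => ε ≤ |(area (2 * n) f : ℝ) / (n : ℝ) ^ 2 - a s|) ≤
          Real.exp (-(c * n))) ∧
      (sc < s → (∃ z : ℝ, IsMax μ m (a s) z) ∧ ∀ z : ℝ, IsMax μ m (a s) z →
        ∀ δ : ℝ, 0 < δ → ∃ c : ℝ, 0 < c ∧ ∀ᶠ n : ℕ in atTop,
          prob n s (fun f => ¬Close n (√(a s / volume.real (Wulff (m z))) • Wulff (m z)) δ f) ≤
            Real.exp (-(c * n))) := by
  have hmu := H981.mu_pos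
  obtain ⟨m, hm⟩ : ∃ m : ℝ → ℤ × ℤ → ℝ,
      m = fun z x => Y981.L2X.M (-Real.log (z * H981.mu)) ((x.1 : ℝ), (x.2 : ℝ)) := ⟨_, rfl⟩
  have hlogE : ∀ z : ℝ, 0 < z → z < 1 / H981.mu → 0 < -Real.log (z * H981.mu) := by
    intro z hz hz1
    have h1 : z * H981.mu < 1 := by rwa [lt_div_iff₀ hmu] at hz1
    have h2 := Real.log_neg (mul_pos hz hmu) h1
    linarith
  have hW : ∀ z : ℝ, 0 < z → z < 1 / H981.mu →
      Wulff (m z) = H26.WF.Kc (-Real.log (z * H981.mu)) := by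
    intro z hz hz1
    rw [hm]
    exact H26.WF.shape (hlogE z hz hz1)
  have hinv : ∀ E : ℝ, 0 < E → ∃ z : ℝ, 0 < z ∧ z < 1 / H981.mu ∧
      -Real.log (z * H981.mu) = E := by
    intro E hE
    refine ⟨Real.exp (-E) / H981.mu, by positivity, ?_, ?_⟩
    · rw [div_lt_div_iff_of_pos_right hmu, ← Real.exp_zero]
      exact Real.exp_lt_exp.2 (by linarith)
    · rw [div_mul_cancel₀ _ hmu.ne', Real.log_exp, neg_neg]
  -- maximisers
  have hval : ∀ u : ℝ, 0 ≤ u → ∀ z : ℝ, 0 < z → z < 1 / H981.mu →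
      2 * √(u * volume.real (Wulff (m z))) + 2 * Real.log (H981.mu * z) =
        2 * (√u * H26.WF.g (-Real.log (z * H981.mu))) - 2 * -Real.log (z * H981.mu) := by
    intro u hu z hz hz1
    rw [hW z hz hz1, Real.sqrt_mul hu, mul_comm H981.mu z]
    unfold H26.WF.g H26.WF.V
    ring
  have hopt : ∀ u : ℝ, 0 < u → u < 1 / 4 → ∀ z : ℝ, 0 < z → z < 1 / H981.mu →
      (IsMax H981.mu m u z ↔ H26.WS.Opt u (-Real.log (z * H981.mu))) := by
    intro u hu hu4 z hz hz1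
    have hs := H26.WF.sqrt_mem ⟨hu.le, hu4.le⟩
    have hv : ∀ E, 2 * √(u * H26.WF.V E) - 2 * E = 2 * (√u * H26.WF.g E) - 2 * E := by
      intro E
      rw [Real.sqrt_mul hu.le]
      rfl
    constructor
    · rintro ⟨-, -, h⟩
      refine ⟨hlogE z hz hz1, ?_⟩
      rw [H26.WF.RR_eq hu.le, hv]
      apply le_antisymm
      · apply H26.WF.rho_le
        intro E hE
        obtain ⟨z', hz', hz1', rfl⟩ := hinv E hE
        have h1 := h z' hz' hz1'
        rwa [hval u hu.le z hz hz1, hval u hu.le z' hz' hz1'] at h1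
      · exact H26.WF.le_rho hs.1 hs.2 (hlogE z hz hz1)
    · rintro ⟨-, h⟩
      refine ⟨hz, hz1, ?_⟩
      intro z' hz' hz1'
      rw [hval u hu.le z hz hz1, hval u hu.le z' hz' hz1']
      rw [H26.WF.RR_eq hu.le, hv] at h
      rw [← h]
      exact H26.WF.le_rho hs.1 hs.2 (hlogE z' hz' hz1')
  -- partition functions
  have hZ : ∀ (n : ℕ) (s : ℝ), (Z n s fun _ => True) = H26.WS.Zs n s := by
    intro n s
    unfold Z H26.WS.Zs
    simp only [and_true]
    rfl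
  have hZ0 : ∀ n : ℕ, 1 ≤ n → (Z n 0 fun _ => True) =
      ({f : ZMod (2 * n) → ℤ × ℤ | H981.IsLoop (2 * n) f}.ncard : ℝ) := by
    intro n hn
    rw [hZ]
    unfold H26.WS.Zs
    simp only [zero_mul, zero_div, Real.exp_zero]
    rw [finsum_mem_eq_finite_toFinset_sum _ (Y981.L2.loops_finite hn), Finset.sum_const,
      nsmul_eq_mul, mul_one, Set.ncard_eq_toFinset_card _ (Y981.L2.loops_finite hn)]
  have hprob : ∀ (n : ℕ) (s b : ℝ) (B : (ZMod (2 * n) → ℤ × ℤ) → Prop), 0 < H26.WS.Zs n s →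
      H26.WS.wt n s B ≤ b * H26.WS.Zs n s → prob n s B ≤ b := by
    intro n s b B h0 h
    unfold prob
    rw [hZ, div_le_iff₀ h0]
    exact h
  refine ⟨H981.mu, m, H26.WF.RR, H26.WF.FE, H26.WF.am, H26.WF.sc, ?_, ?_, ?_, ?_, ?_, ?_⟩
  · refine H981.tendsto_root.congr ?_
    intro n
    rw [c_eq, TH795.EP.c_eq]
  · intro z hz hz1
    have he := hlogE z hz hz1
    refine ⟨fun x hx => ?_, ?_⟩
    · rw [hm]
      refine ⟨Y981.L2X.M_pos he hx, ?_⟩
      refine (Y981.L2X.G_dir hz hz1 hx).congr ?_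
      intro k
      rw [G_eq]
    · rw [hW z hz hz1]
      exact H26.WF.Kc_props he
  · intro u hu
    have hs := H26.WF.sqrt_mem hu
    constructor
    · rintro _ ⟨z, hz, hz1, rfl⟩
      rw [hval u hu.1 z hz hz1, H26.WF.RR_eq hu.1]
      exact H26.WF.le_rho hs.1 hs.2 (hlogE z hz hz1)
    · intro b hb
      rw [H26.WF.RR_eq hu.1]
      apply H26.WF.rho_le
      intro E hE
      obtain ⟨z, hz, hz1, rfl⟩ := hinv E hE
      have h1 := hb ⟨z, hz, hz1, rfl⟩
      rwa [hval u hu.1 z hz hz1] at h1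
  · intro s
    refine ⟨⟨⟨H26.WF.am s, (H26.WF.am_mem s).1, (H26.WF.am_eq s).symm⟩, ?_⟩, ?_⟩
    · rintro _ ⟨u, hu, rfl⟩
      exact H26.WF.le_FE s hu
    · refine (H26.WF.pressure s).congr' ?_
      filter_upwards [eventually_ge_atTop 1] with n hn
      rw [hZ, hZ0 n hn]
      rfl
  · refine ⟨H26.WF.sc_nonneg, ?_, fun s hs => H26.WF.FE_gt_sc hs, H26.WF.am_mono,
      fun s => ⟨H26.WF.am_nonneg s, H26.WF.am_lt s⟩, fun s hs => H26.WF.am_lt_sc hs,
      fun s hs => H26.WF.am_gt_sc hs, H26.WF.am_mono.countable_not_continuousAt⟩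
    intro s hs
    rcases hs.lt_or_eq with h | h
    · exact H26.WF.FE_lt_sc h
    · rw [h]
      exact H26.WF.FE_sc
  · intro s hs
    refine ⟨H26.WF.FE_deriv hs, ?_, ?_, ?_⟩
    · refine (H26.WS.mean_areaP hs).congr ?_
      intro n
      unfold meanArea
      rw [hZ]
      rfl
    · intro ε hε
      obtain ⟨c, hc, h⟩ := H26.WS.conc hs hε
      refine ⟨c, hc, ?_⟩
      filter_upwards [h, H26.WS.Zs_pos s] with n h1 h2
      exact hprob n s _ _ h2 h1
    · intro hsc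
      have ha0 := H26.WF.am_gt_sc hsc
      have ha1 := H26.WF.am_lt s
      refine ⟨?_, ?_⟩
      · obtain ⟨E, hE⟩ := H26.WS.exists_opt ha0 ha1
        obtain ⟨z, hz, hz1, hzE⟩ := hinv E hE.1
        refine ⟨z, (hopt _ ha0 ha1 z hz hz1).2 ?_⟩
        rw [hzE]
        exact hE
      · intro z hz δ hδ
        have h1 := (hopt _ ha0 ha1 z hz.1 hz.2.1).1 hz
        obtain ⟨c, hc, h⟩ := H26.WS.shapeP hs ha0 h1 hδ
        refine ⟨c, hc, ?_⟩
        filter_upwards [h, H26.WS.Zs_pos s] with n h2 h3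
        rw [hW z hz.1 hz.2.1]
        exact hprob n s _ _ h3 h2

end Pool.Agent.Results.MP_2250b1_co.InflationTransition
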